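import Pool.Agent.H424.MW.Mid

/-! The lower half of the conjecture for symmetric windows implies the conjecture. -/

open MeasureTheory Filter Topology Real Set

namespace Pool.Agent.H424.MW

open Pool.Agent.Y744

variable {κ : ℝ}

lemma AG_eq {t : ℝ} (ht : 0 ≤ t) : AG t = 1 + 2 * gp t := by
  unfold AG
  rw [if_neg (by linarith)]

lemma AG_nn {t : ℝ} (ht : 0 ≤ t) : 0 ≤ AG t := by
  rw [AG_eq ht]
  have := gp_nonneg ht
  linarith

lemma AG_sub {s t : ℝ} (hs : 0 ≤ s) (hst : s ≤ t) : AG t - AG s ≤ 2 * (t - s) := by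
  rw [AG_eq hs, AG_eq (hs.trans hst)]
  have h1 := gp_sub s t
  have h2 : ∫ u in s..t, gd u ≤ ∫ u in s..t, (1 : ℝ) :=
    intervalIntegral.integral_mono_on hst (gd_cont.intervalIntegrable _ _)
      (intervalIntegrable_const) fun u _ => gd_le u
  rw [intervalIntegral.integral_const, smul_eq_mul, mul_one] at h2
  linarith

lemma khAG_int (h0 : 0 < κ) (h1 : κ ≤ 1) {a : ℝ} (ha : 0 ≤ a) :
    IntegrableOn (fun t => kh κ t * AG t) (Ioi a) := by
  have h := (kh_intOn h0 h1 ha).add ((khgp_int h0 h1 ha).const_mul 2)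
  refine IntegrableOn.congr_fun h (fun t ht => ?_) measurableSet_Ioi
  have ht0 : 0 < t := ha.trans_lt ht
  show kh κ t + 2 * (kh κ t * gp t) = kh κ t * AG t
  rw [AG_eq ht0.le]
  ring

lemma Aa_nn {T : ℝ} (hT : 1 < T) (y : ℝ) : 0 ≤ Aa T y :=
  mul_nonneg (inv_nonneg.2 (Xf_pos hT).le) (PC_nonneg _ _)

lemma khAa_int (h0 : 0 < κ) (h1 : κ ≤ 1) {T : ℝ} (hT : 1 < T) {a : ℝ} (ha : 0 ≤ a) :
    IntegrableOn (fun t => kh κ t * Aa T t) (Ioi a) := by
  have h := kh_intOn h0 h1 ha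
  refine Integrable.mul_bdd (c := (Xf T)⁻¹ * PC T univ) h
    (Aa_mono hT).measurable.aestronglyMeasurable (ae_of_all _ fun t => ?_)
  rw [Real.norm_eq_abs, abs_of_nonneg (Aa_nn hT t)]
  unfold Aa
  exact mul_le_mul_of_nonneg_left (PC_mono T (subset_univ _)) (inv_nonneg.2 (Xf_pos hT).le)

lemma ind_Ioi {f : ℝ → ℝ} {B : ℝ} (hB : 0 ≤ B) :
    ∫ t in Ioi 0, (Ioi B).indicator f t = ∫ t in Ioi B, f t := by
  rw [setIntegral_indicator measurableSet_Ioi]
  congr 2
  ext t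
  simp only [mem_inter_iff, mem_Ioi]
  exact ⟨fun h => h.2, fun h => ⟨hB.trans_lt h, h⟩⟩

lemma ind_Ioc (h0 : 0 < κ) (h1 : κ ≤ 1) {a b : ℝ} (ha : 0 ≤ a) (hab : a ≤ b) :
    ∫ t in Ioi 0, (Ioc a b).indicator (kh κ) t = F κ a - F κ b := by
  rw [setIntegral_indicator measurableSet_Ioc]
  have e : Ioi 0 ∩ Ioc a b = Ioc a b := by
    ext t
    simp only [mem_inter_iff, mem_Ioi, mem_Ioc]
    exact ⟨fun h => h.2, fun h => ⟨ha.trans_lt h.1, h⟩⟩
  rw [e, ← kh_int h0 h1 ha, ← kh_int h0 h1 (ha.trans hab)]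
  have h2 : Ioi a = Ioc a b ∪ Ioi b := (Ioc_union_Ioi_eq_Ioi hab).symm
  have h3 : ∫ t in Ioi a, kh κ t = (∫ t in Ioc a b, kh κ t) + ∫ t in Ioi b, kh κ t := by
    rw [h2]
    refine setIntegral_union ?_ measurableSet_Ioi ?_ (kh_intOn h0 h1 (ha.trans hab))
    · rw [Set.disjoint_left]
      rintro x ⟨_, h4⟩ (h5 : b < x)
      linarith
    · exact (kh_intOn h0 h1 ha).mono_set (fun x hx => hx.1)
  rw [h3]
  ring

lemma F_lt (h0 : 0 < κ) (h1 : κ ≤ 1) {a b : ℝ} (ha : 0 ≤ a) (hab : a < b) : F κ b < F κ a := by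
  have h := strictAntiOn_of_deriv_neg (convex_Ici (0 : ℝ)) (f := F κ) (F_cont κ).continuousOn
    (fun x hx => by
      rw [interior_Ici] at hx
      rw [(F_deriv h0 h1 hx).deriv]
      linarith [kh_pos (κ := κ) h0 hx])
  exact h ha (ha.trans hab.le) hab

lemma int5 {μ : Measure ℝ} {f1 f2 f3 f4 f5 : ℝ → ℝ} (h1 : Integrable f1 μ) (h2 : Integrable f2 μ)
    (h3 : Integrable f3 μ) (h4 : Integrable f4 μ) (h5 : Integrable f5 μ) :
    ∫ t, (f1 t - f2 t + f3 t + f4 t - f5 t) ∂μ =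
      (∫ t, f1 t ∂μ) - (∫ t, f2 t ∂μ) + (∫ t, f3 t ∂μ) + (∫ t, f4 t ∂μ) - ∫ t, f5 t ∂μ := by
  rw [integral_sub (f := fun t => f1 t - f2 t + f3 t + f4 t) (((h1.sub h2).add h3).add h4) h5,
    integral_add (f := fun t => f1 t - f2 t + f3 t) ((h1.sub h2).add h3) h4,
    integral_add (f := fun t => f1 t - f2 t) (h1.sub h2) h3, integral_sub h1 h2]

/-- the basic inequality -/
lemma low_up (h0 : 0 < κ) (h1 : κ ≤ 1) {T η δ B t0 : ℝ} (hT : 1 < T) (hη : 0 ≤ η) (hδ : 0 < δ)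
    (hB : 0 ≤ B) (ht0 : 0 ≤ t0) (hlow : ∀ t ∈ Ioc 0 B, AG t - η ≤ Aa T t)
    (hbig : AG t0 + δ ≤ Aa T t0) :
    δ / 2 * (F κ t0 - F κ (t0 + δ / 4)) ≤
      (∫ t in Ioi 0, kh κ t * Aa T t) - (∫ t in Ioi 0, kh κ t * AG t) + η * F κ 0 +
        ∫ t in Ioi B, kh κ t * AG t := by
  have i1 := khAa_int h0 h1 hT (le_refl (0 : ℝ))
  have i2 := khAG_int h0 h1 (le_refl (0 : ℝ))
  have i3 := (kh_intOn h0 h1 (le_refl (0 : ℝ))).const_mul η
  have i4 : IntegrableOn ((Ioi B).indicator fun t => kh κ t * AG t) (Ioi 0) :=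
    i2.indicator measurableSet_Ioi
  have i5 : IntegrableOn (fun t => δ / 2 * (Ioc t0 (t0 + δ / 4)).indicator (kh κ) t) (Ioi 0) :=
    ((kh_intOn h0 h1 (le_refl (0 : ℝ))).indicator measurableSet_Ioc).const_mul _
  have hpt : ∀ t ∈ Ioi (0 : ℝ), 0 ≤ kh κ t * Aa T t - kh κ t * AG t + η * kh κ t +
      (Ioi B).indicator (fun t => kh κ t * AG t) t -
      δ / 2 * (Ioc t0 (t0 + δ / 4)).indicator (kh κ) t := by
    intro t ht
    have ht' : 0 < t := ht
    have hk := kh_nonneg (κ := κ) (x := t) h0.le ht'.le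
    have hA := Aa_nn hT t
    have hG := AG_nn ht'.le
    -- the value of the bracket
    have hlow' : 0 ≤ kh κ t * Aa T t - kh κ t * AG t + η * kh κ t +
        (Ioi B).indicator (fun t => kh κ t * AG t) t := by
      rcases le_or_gt t B with h | h
      · rw [indicator_of_notMem (by simpa using h)]
        have := hlow t ⟨ht', h⟩
        nlinarith
      · rw [indicator_of_mem (show t ∈ Ioi B from h)]
        have := mul_nonneg hk hA
        have := mul_nonneg hη hk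
        linarith
    by_cases hm : t ∈ Ioc t0 (t0 + δ / 4)
    · rw [indicator_of_mem hm]
      have h2 := Aa_mono hT hm.1.le
      have h3 := AG_sub ht0 hm.1.le
      have h4 : δ / 2 ≤ Aa T t - AG t := by linarith [hm.2]
      have h5 : 0 ≤ (Ioi B).indicator (fun t => kh κ t * AG t) t := by
        rw [indicator_apply]
        split_ifs
        · exact mul_nonneg hk hG
        · exact le_rfl
      have h6 := mul_le_mul_of_nonneg_left h4 hk
      have h7 := mul_nonneg hη hk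
      linarith
    · rw [indicator_of_notMem hm]
      linarith
  have h := setIntegral_nonneg (μ := volume) measurableSet_Ioi hpt
  have e : ∫ t in Ioi (0 : ℝ), (kh κ t * Aa T t - kh κ t * AG t + η * kh κ t +
      (Ioi B).indicator (fun t => kh κ t * AG t) t -
      δ / 2 * (Ioc t0 (t0 + δ / 4)).indicator (kh κ) t) =
      (∫ t in Ioi 0, kh κ t * Aa T t) - (∫ t in Ioi 0, kh κ t * AG t) + η * F κ 0 +
        (∫ t in Ioi B, kh κ t * AG t) - δ / 2 * (F κ t0 - F κ (t0 + δ / 4)) := by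
    rw [int5 i1 i2 i3 i4 i5, integral_const_mul, integral_const_mul,
      ind_Ioi hB, ind_Ioc h0 h1 ht0 (by linarith), kh_int h0 h1 le_rfl]
  rw [e] at h
  linarith

/-- the inequality for the diagonal -/
lemma eff_diag (h0 : 0 < κ) (h1 : κ ≤ 1) {T η B : ℝ} (hT : 1 < T) (hη : 0 ≤ η) (hB : 0 ≤ B)
    (hlow : ∀ t ∈ Ioc 0 B, gp t - η ≤ (Aa T t - Aa T 0) / 2) :
    F κ 0 * (Aa T 0 - 1) ≤
      (∫ t in Ioi 0, kh κ t * Aa T t) - (∫ t in Ioi 0, kh κ t * AG t) + 2 * η * F κ 0 +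
        2 * ∫ t in Ioi B, kh κ t * gp t := by
  have i0 := kh_intOn h0 h1 (le_refl (0 : ℝ))
  have i1 := khAa_int h0 h1 hT (le_refl (0 : ℝ))
  have i2 := khAG_int h0 h1 (le_refl (0 : ℝ))
  have i3 := i0.const_mul (2 * η)
  have i4 : IntegrableOn (fun t => 2 * (Ioi B).indicator (fun t => kh κ t * gp t) t) (Ioi 0) :=
    ((khgp_int h0 h1 (le_refl (0 : ℝ))).indicator measurableSet_Ioi).const_mul 2
  have i5 := i0.const_mul (Aa T 0 - 1)
  have hpt : ∀ t ∈ Ioi (0 : ℝ), 0 ≤ kh κ t * Aa T t - kh κ t * AG t + 2 * η * kh κ t +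
      2 * (Ioi B).indicator (fun t => kh κ t * gp t) t - (Aa T 0 - 1) * kh κ t := by
    intro t ht
    have ht' : 0 < t := ht
    have hk := kh_nonneg (κ := κ) (x := t) h0.le ht'.le
    have hG := AG_eq ht'.le
    have hm := Aa_mono hT ht'.le
    have hg := gp_nonneg ht'.le
    rw [hG]
    rcases le_or_gt t B with h | h
    · rw [indicator_of_notMem (by simpa using h)]
      have h2 := hlow t ⟨ht', h⟩
      nlinarith
    · rw [indicator_of_mem (show t ∈ Ioi B from h)]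
      have h3 := mul_nonneg hη hk
      have h4 := mul_nonneg hk (sub_nonneg.2 hm)
      nlinarith
  have h := setIntegral_nonneg (μ := volume) measurableSet_Ioi hpt
  have e : ∫ t in Ioi (0 : ℝ), (kh κ t * Aa T t - kh κ t * AG t + 2 * η * kh κ t +
      2 * (Ioi B).indicator (fun t => kh κ t * gp t) t - (Aa T 0 - 1) * kh κ t) =
      (∫ t in Ioi 0, kh κ t * Aa T t) - (∫ t in Ioi 0, kh κ t * AG t) + 2 * η * F κ 0 +
        2 * (∫ t in Ioi B, kh κ t * gp t) - (Aa T 0 - 1) * F κ 0 := by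
    rw [int5 i1 i2 i3 i4 i5, integral_const_mul, integral_const_mul,
      integral_const_mul, ind_Ioi hB, kh_int h0 h1 le_rfl]
  rw [e] at h
  linarith

/-- tails -/
lemma sq_tail {B : ℝ} (hB : 0 < B) (C : ℝ) : ∫ t in Ioi B, C * t ^ (-2 : ℝ) = C / B ∧
    IntegrableOn (fun t => C * t ^ (-2 : ℝ)) (Ioi B) := by
  constructor
  · rw [integral_const_mul, integral_Ioi_rpow_of_lt (by norm_num) hB]
    rw [show (-2 : ℝ) + 1 = -1 by norm_num, Real.rpow_neg_one]
    field_simp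
  · exact (integrableOn_Ioi_rpow_of_lt (by norm_num) hB).const_mul C

lemma tail_AG (h0 : 0 < κ) (h1 : κ ≤ 1) {B : ℝ} (hB : 1 ≤ B) :
    ∫ t in Ioi B, kh κ t * AG t ≤ 72 / B := by
  have hB0 : 0 < B := by linarith
  obtain ⟨e, i⟩ := sq_tail hB0 72
  rw [← e]
  refine setIntegral_mono_on (khAG_int h0 h1 hB0.le) i measurableSet_Ioi fun t ht => ?_
  have ht1 : 1 < t := hB.trans_lt ht
  have ht0 : 0 < t := by linarith
  have h2 := kh_le h0 h1 ht0
  have h3 : AG t ≤ 3 * t := by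
    rw [AG_eq ht0.le]
    have := gp_le ht0.le
    linarith
  have hk := kh_nonneg (κ := κ) (x := t) h0.le ht0.le
  have e2 : (t : ℝ) ^ (-2 : ℝ) = 1 / t ^ 2 := by
    rw [Real.rpow_neg ht0.le, one_div]
    norm_cast
  rw [e2]
  calc kh κ t * AG t ≤ kh κ t * (3 * t) := by gcongr
    _ = 3 * (t * kh κ t) := by ring
    _ ≤ 3 * (24 / (1 + t ^ 2)) := by gcongr
    _ ≤ 3 * (24 / t ^ 2) := by
        gcongr
        linarith
    _ = 72 * (1 / t ^ 2) := by ring

lemma tail_gp {B : ℝ} (hB : 1 ≤ B) :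
    ∫ t in Ioi B, kh (9 / 10) t * gp t ≤ 162 / 1000 / B := by
  have hB0 : 0 < B := by linarith
  have h0 : (0 : ℝ) < 9 / 10 := by norm_num
  have h1 : (9 / 10 : ℝ) ≤ 1 := by norm_num
  obtain ⟨e, i⟩ := sq_tail hB0 (162 / 1000)
  rw [← e]
  refine setIntegral_mono_on (khgp_int h0 h1 hB0.le) i measurableSet_Ioi fun t ht => ?_
  have ht1 : 1 < t := hB.trans_lt ht
  have ht0 : 0 < t := by linarith
  have hk := kh_nonneg (κ := 9 / 10) (x := t) h0.le ht0.le
  have e2 : (t : ℝ) ^ (-2 : ℝ) = 1 / t ^ 2 := by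
    rw [Real.rpow_neg ht0.le, one_div]
    norm_cast
  rw [e2]
  have hpi := Real.pi_gt_d2
  have hpi0 := Real.pi_pos
  have hw : 0 < 2 * π * t := by positivity
  have e3 : t * kh (9 / 10) t = 2 * G (9 / 10 * (2 * π * t)) / (2 * π * t) ^ 3 := by
    unfold kh
    field_simp
    ring
  have h3 := G_le_lin (y := 9 / 10 * (2 * π * t)) (by positivity)
  calc kh (9 / 10) t * gp t ≤ kh (9 / 10) t * t := by
        gcongr
        exact gp_le ht0.le
    _ = t * kh (9 / 10) t := by ring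
    _ = 2 * G (9 / 10 * (2 * π * t)) / (2 * π * t) ^ 3 := e3
    _ ≤ 2 * (3 * (9 / 10 * (2 * π * t)) + 3) / (2 * π * t) ^ 3 := by gcongr
    _ ≤ 162 / 1000 * (1 / t ^ 2) := by
        rw [mul_one_div, div_le_div_iff₀ (by positivity) (by positivity)]
        have h4 : (2 * π * t) ^ 3 = 8 * π ^ 3 * t ^ 3 := by ring
        rw [h4]
        have h5 : 9.8595 ≤ π ^ 2 := by nlinarith
        have h6 : 30.95 ≤ π ^ 3 := by nlinarith
        have h7 : 2 * (3 * (9 / 10 * (2 * π * t)) + 3) ≤ (10.8 * π + 6) * t := by nlinarith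
        have h8 : (10.8 * π + 6) ≤ 162 / 1000 * (8 * π ^ 3) := by nlinarith
        calc 2 * (3 * (9 / 10 * (2 * π * t)) + 3) * t ^ 2 ≤ (10.8 * π + 6) * t * t ^ 2 := by
              gcongr
          _ ≤ 162 / 1000 * (8 * π ^ 3) * t * t ^ 2 := by gcongr
          _ = 162 / 1000 * (8 * π ^ 3 * t ^ 3) := by ring

/-- from single points to intervals -/
lemma grid {l : Filter ℝ} (hl : l ≤ atTop)
    (h : ∀ t, 0 < t → ∀ ε, 0 < ε → ∀ᶠ T in l, AG t - ε ≤ Aa T t) {B η : ℝ} (hB : 0 < B)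
    (hη : 0 < η) : ∀ᶠ T in l, ∀ t ∈ Ioc 0 B, AG t - η ≤ Aa T t := by
  obtain ⟨n, hn⟩ := exists_nat_gt (4 * B / η)
  have hn0 : (0 : ℝ) < n := lt_of_le_of_lt (by positivity) hn
  have hstep : B / n ≤ η / 4 := by
    rw [div_lt_iff₀ hη] at hn
    rw [div_le_iff₀ hn0]
    linarith
  have hp : ∀ i ∈ Finset.range (n + 1), ∀ᶠ T in l, AG (i * B / n) - η / 2 ≤ Aa T (i * B / n) := by
    intro i _
    rcases Nat.eq_zero_or_pos i with hi | hi
    · subst hi
      have e : ((0 : ℕ) : ℝ) * B / n = 0 := by simp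
      rw [e, AG_eq le_rfl, gp_zero]
      have := hl (Aa_diag (ε := η / 2) (by linarith))
      filter_upwards [this] with T hT
      linarith
    · have hi' : (0 : ℝ) < i := by exact_mod_cast hi
      exact h _ (by positivity) _ (by linarith)
  have hall := (Filter.eventually_all_finset _).2 hp
  filter_upwards [hall, hl (eventually_gt_atTop 1)] with T hT hT1
  intro t ht
  have hq : 0 ≤ t * n / B := by have := ht.1; positivity
  obtain ⟨i, hi⟩ : ∃ i, i = ⌊t * n / B⌋₊ := ⟨_, rfl⟩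
  have h1 : (i : ℝ) ≤ t * n / B := by rw [hi]; exact Nat.floor_le hq
  have h2 : t * n / B < i + 1 := by rw [hi]; exact Nat.lt_floor_add_one _
  have h3 : (i : ℝ) * B / n ≤ t := by
    rw [div_le_iff₀ hn0]
    rw [le_div_iff₀ hB] at h1
    linarith
  have h4 : t - (i : ℝ) * B / n ≤ η / 4 := by
    refine le_trans ?_ hstep
    rw [div_lt_iff₀ hB] at h2
    rw [sub_le_iff_le_add, ← add_div, le_div_iff₀ hn0]
    linarith
  have hin : i ∈ Finset.range (n + 1) := by
    rw [Finset.mem_range, Nat.lt_succ_iff]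
    have : (i : ℝ) ≤ n := h1.trans (by
      rw [div_le_iff₀ hB]
      nlinarith [ht.2])
    exact_mod_cast this
  have h5 := hT i hin
  have h6 := Aa_mono hT1 h3
  have h7 := AG_sub (s := (i : ℝ) * B / n) (t := t) (by positivity) h3
  linarith

/-- **the lower half for symmetric windows implies the pair correlation conjecture** -/
theorem Aa_tend (RH : RiemannHypothesis) {l : Filter ℝ} (hl : l ≤ atTop)
    (h : ∀ t, 0 < t → ∀ ε, 0 < ε → ∀ᶠ T in l, AG t - ε ≤ Aa T t) (x : ℝ) :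
    Tendsto (fun T => Aa T x) l (𝓝 (AG x)) := by
  have h0 : (0 : ℝ) < 9 / 10 := by norm_num
  have h1 : (9 / 10 : ℝ) < 1 := by norm_num
  rcases lt_or_ge x 0 with hx | hx
  · have : AG x = 0 := by unfold AG; rw [if_pos hx]
    rw [this]
    exact tendsto_const_nhds.congr fun T => (Aa_neg T x hx).symm
  rw [tendsto_order]
  constructor
  · intro a ha
    rcases hx.eq_or_lt with hx0 | hx0
    · rw [← hx0] at ha ⊢
      rw [AG_eq le_rfl, gp_zero] at ha
      filter_upwards [hl (Aa_diag (ε := (1 - a) / 2) (by linarith))] with T hT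
      linarith
    · filter_upwards [h x hx0 ((AG x - a) / 2) (by linarith)] with T hT
      linarith
  · intro a ha
    obtain ⟨δ, hδ⟩ : ∃ δ, δ = a - AG x := ⟨_, rfl⟩
    have hδ0 : 0 < δ := by linarith
    obtain ⟨c, hc⟩ : ∃ c, c = δ / 2 * (F (9 / 10) x - F (9 / 10) (x + δ / 4)) := ⟨_, rfl⟩
    have hc0 : 0 < c := by
      rw [hc]
      have := F_lt h0 h1.le hx (show x < x + δ / 4 by linarith)
      have : 0 < F (9 / 10) x - F (9 / 10) (x + δ / 4) := by linarith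
      positivity
    have hF : F (9 / 10) 0 = 243 / 1000 := by
      rw [F_zero h0 h1.le]; norm_num
    obtain ⟨B, hB⟩ : ∃ B, B = max 1 (288 / c) := ⟨_, rfl⟩
    have hB1 : 1 ≤ B := by rw [hB]; exact le_max_left _ _
    have hB2 : 288 / c ≤ B := by rw [hB]; exact le_max_right _ _
    have hB0 : 0 < B := by linarith
    have htail : ∫ t in Ioi B, kh (9 / 10) t * AG t ≤ c / 4 := by
      refine (tail_AG h0 h1.le hB1).trans ?_
      rw [div_le_iff₀ hB0]
      rw [div_le_iff₀ hc0] at hB2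
      linarith
    have hJ := (J_lim RH h0 h1).mono_left hl
    have hJ2 := hJ.eventually (gt_mem_nhds (show (∫ t in Ioi 0, kh (9 / 10) t * AG t) <
      (∫ t in Ioi 0, kh (9 / 10) t * AG t) + c / 4 by linarith))
    filter_upwards [hJ2, grid hl h hB0 (show 0 < c / 4 by linarith), hl (eventually_gt_atTop 1)]
      with T hT1 hT2 hT3
    by_contra hcon
    push Not at hcon
    have h3 := low_up h0 h1.le hT3 (show 0 ≤ c / 4 by linarith) hδ0 hB0.le hx hT2
      (by linarith : AG x + δ ≤ Aa T x)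
    rw [← hc, hF] at h3
    linarith

/-- **the diagonal at a single height** -/
theorem diag_single (RH : RiemannHypothesis) {ε : ℝ} (hε : 0 < ε) : ∀ᶠ T in atTop, 1 < T ∧
    ∀ B η : ℝ, 1 ≤ B → 0 ≤ η → (∀ t ∈ Ioc 0 B, gp t - η ≤ (Aa T t - Aa T 0) / 2) →
      Aa T 0 ≤ 1 + 2 * η + 4 / (3 * B) + ε := by
  have h0 : (0 : ℝ) < 9 / 10 := by norm_num
  have h1 : (9 / 10 : ℝ) < 1 := by norm_num
  have hF : F (9 / 10) 0 = 243 / 1000 := by
    rw [F_zero h0 h1.le]; norm_num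
  have hJ2 := (J_lim RH h0 h1).eventually (gt_mem_nhds (show (∫ t in Ioi 0, kh (9 / 10) t * AG t) <
      (∫ t in Ioi 0, kh (9 / 10) t * AG t) + 243 / 1000 * ε by linarith))
  filter_upwards [hJ2, eventually_gt_atTop 1] with T hT hT1
  refine ⟨hT1, fun B η hB hη hlow => ?_⟩
  have h2 := eff_diag h0 h1.le hT1 hη (by linarith : 0 ≤ B) hlow
  have h3 := tail_gp hB
  rw [hF] at h2
  have hB0 : 0 < B := by linarith
  have e : (4 : ℝ) / (3 * B) = 2 * (162 / 1000 / B) / (243 / 1000) := by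
    field_simp
    norm_num
  rw [e]
  have h4 : 243 / 1000 * (Aa T 0 - 1) ≤ 243 / 1000 * ε + 2 * η * (243 / 1000) +
      2 * (162 / 1000 / B) := by linarith
  have h5 : 2 * (162 / 1000 / B) = 243 / 1000 * (2 * (162 / 1000 / B) / (243 / 1000)) := by
    field_simp
  rw [h5] at h4
  linarith

end Pool.Agent.H424.MW
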