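import Mathlib

/-! A band-limited function that decreases on the positive half-line. -/

open MeasureTheory Filter Topology Real Set

namespace Pool.Agent.H424.MW

/-- the function of Cusa's inequality -/
noncomputable def G (y : ℝ) : ℝ := y * (2 + Real.cos y) - 3 * Real.sin y

lemma sin_sub_pos {y : ℝ} (hy : 0 < y) (hy2 : y < π) : 0 < Real.sin y - y * Real.cos y := by
  have hm : StrictMonoOn (fun y : ℝ => Real.sin y - y * Real.cos y) (Icc 0 π) := by
    apply strictMonoOn_of_deriv_pos (convex_Icc 0 π)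
    · fun_prop
    · intro x hx
      rw [interior_Icc] at hx
      have hd : HasDerivAt (fun y : ℝ => Real.sin y - y * Real.cos y)
          (Real.cos x - (1 * Real.cos x + x * (-Real.sin x))) x :=
        (Real.hasDerivAt_sin x).sub ((hasDerivAt_id x).mul (Real.hasDerivAt_cos x))
      rw [hd.deriv]
      have := Real.sin_pos_of_pos_of_lt_pi hx.1 hx.2
      have := mul_pos hx.1 this
      linarith
  have := hm ⟨le_rfl, Real.pi_pos.le⟩ ⟨hy.le, hy2.le⟩ hy
  simpa using this

lemma mid_pos {y : ℝ} (hy : 0 < y) (hy2 : y < π) :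
    0 < 2 - 2 * Real.cos y - y * Real.sin y := by
  have hm : StrictMonoOn (fun y : ℝ => 2 - 2 * Real.cos y - y * Real.sin y) (Icc 0 π) := by
    apply strictMonoOn_of_deriv_pos (convex_Icc 0 π)
    · fun_prop
    · intro x hx
      rw [interior_Icc] at hx
      have hd : HasDerivAt (fun y : ℝ => 2 - 2 * Real.cos y - y * Real.sin y)
          (0 - 2 * (-Real.sin x) - (1 * Real.sin x + x * Real.cos x)) x :=
        ((hasDerivAt_const x (2 : ℝ)).sub ((Real.hasDerivAt_cos x).const_mul 2)).sub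
          ((hasDerivAt_id x).mul (Real.hasDerivAt_sin x))
      rw [hd.deriv]
      have := sin_sub_pos hx.1 hx.2
      linarith
  have := hm ⟨le_rfl, Real.pi_pos.le⟩ ⟨hy.le, hy2.le⟩ hy
  simpa using this

lemma G_pos {y : ℝ} (hy : 0 < y) : 0 < G y := by
  rcases lt_or_ge y π with h | h
  · have hm : StrictMonoOn G (Icc 0 π) := by
      apply strictMonoOn_of_deriv_pos (convex_Icc 0 π)
      · unfold G; fun_prop
      · intro x hx
        rw [interior_Icc] at hx
        have hd : HasDerivAt G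
            ((1 * (2 + Real.cos x) + x * (0 + (-Real.sin x))) - 3 * Real.cos x) x :=
          ((hasDerivAt_id x).mul ((hasDerivAt_const x (2 : ℝ)).add (Real.hasDerivAt_cos x))).sub
            ((Real.hasDerivAt_sin x).const_mul 3)
        rw [hd.deriv]
        have := mid_pos hx.1 hx.2
        linarith
    have := hm ⟨le_rfl, Real.pi_pos.le⟩ ⟨hy.le, h.le⟩ hy
    have h0 : G 0 = 0 := by unfold G; simp
    rwa [h0] at this
  · unfold G
    have h1 := Real.neg_one_le_cos y
    have h2 := Real.sin_le_one y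
    have h3 := Real.pi_gt_three
    nlinarith

lemma G_nonneg {y : ℝ} (hy : 0 ≤ y) : 0 ≤ G y := by
  rcases hy.eq_or_lt with h | h
  · rw [← h]; unfold G; simp
  · exact (G_pos h).le

lemma G_le_lin {y : ℝ} (hy : 0 ≤ y) : G y ≤ 3 * y + 3 := by
  unfold G
  have h1 := Real.cos_le_one y
  have h2 := Real.neg_one_le_sin y
  nlinarith

lemma G_le_cube {y : ℝ} (hy : 0 ≤ y) : G y ≤ 6 * y ^ 3 := by
  rcases hy.eq_or_lt with h | h
  · rw [← h]; unfold G; simp
  · rcases le_or_gt y 1 with h1 | h1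
    · have h2 := Real.sin_gt_sub_cube h
      have h3 := Real.cos_le_one y
      have h4 : 0 < y ^ 3 := by positivity
      unfold G
      nlinarith
    · have h2 := G_le_lin hy
      have h3 : y ≤ y ^ 3 := by nlinarith [mul_pos h (mul_pos h (by linarith : 0 < y - 1))]
      linarith

/-- the kernel: minus the derivative of the transform -/
noncomputable def kh (κ x : ℝ) : ℝ := 4 * π * G (κ * (2 * π * x)) / (2 * π * x) ^ 4

/-- the transform away from zero -/
noncomputable def kf (κ x : ℝ) : ℝ :=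
  2 * (κ * (2 * π * x) - Real.sin (κ * (2 * π * x))) / (2 * π * x) ^ 3

/-- the test function -/
noncomputable def kR (κ α : ℝ) : ℝ := (max 0 (κ - |α|)) ^ 2 / 2

/-- the transform -/
noncomputable def F (κ x : ℝ) : ℝ := ∫ α in (-1 : ℝ)..1, kR κ α * Real.cos (2 * π * x * α)

lemma kR_cont (κ : ℝ) : Continuous (kR κ) := by unfold kR; fun_prop

lemma kR_even (κ α : ℝ) : kR κ (-α) = kR κ α := by unfold kR; rw [abs_neg]

lemma kR_supp {κ α : ℝ} (h : κ ≤ |α|) : kR κ α = 0 := by
  unfold kR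
  rw [max_eq_left (by linarith)]
  simp

lemma kR_nonneg (κ α : ℝ) : 0 ≤ kR κ α := by unfold kR; positivity

lemma kR_le {κ : ℝ} (_h0 : 0 ≤ κ) (h1 : κ ≤ 1) (α : ℝ) : kR κ α ≤ 1 / 2 := by
  unfold kR
  have h2 : max 0 (κ - |α|) ≤ 1 := max_le zero_le_one (by linarith [abs_nonneg α])
  have h3 : 0 ≤ max 0 (κ - |α|) := le_max_left _ _
  have : (max 0 (κ - |α|)) ^ 2 ≤ 1 := pow_le_one₀ h3 h2
  linarith

lemma kh_nonneg {κ x : ℝ} (hκ : 0 ≤ κ) (hx : 0 ≤ x) : 0 ≤ kh κ x := by
  unfold kh
  have h := Real.pi_pos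
  have := G_nonneg (y := κ * (2 * π * x)) (by positivity)
  positivity

lemma kh_pos {κ x : ℝ} (hκ : 0 < κ) (hx : 0 < x) : 0 < kh κ x := by
  unfold kh
  have h := Real.pi_pos
  have := G_pos (y := κ * (2 * π * x)) (by positivity)
  positivity

lemma kf_deriv {κ x : ℝ} (hx : x ≠ 0) : HasDerivAt (kf κ) (-(kh κ x)) x := by
  have hpi := Real.pi_pos
  have hw : HasDerivAt (fun x : ℝ => 2 * π * x) (2 * π) x := by
    simpa using (hasDerivAt_id x).const_mul (2 * π)
  have h1 : HasDerivAt (fun x : ℝ => κ * (2 * π * x)) (κ * (2 * π)) x := hw.const_mul κ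
  have h2 := (h1.sub h1.sin).const_mul 2
  have h3 := hw.pow 3
  have hne : (2 * π * x) ^ 3 ≠ 0 := by positivity
  have h4 := h2.div h3 hne
  refine h4.congr_deriv ?_
  unfold kh G
  simp only [Pi.pow_apply, Pi.sub_apply]
  field_simp
  push_cast
  ring

/-- integration by parts twice -/
lemma half_int {κ w : ℝ} (hw : w ≠ 0) :
    ∫ α in (0 : ℝ)..κ, (κ - α) ^ 2 * Real.cos (w * α) = 2 * (κ * w - Real.sin (κ * w)) / w ^ 3 := by
  have hd : ∀ α : ℝ, HasDerivAt (fun α : ℝ => (κ - α) ^ 2 * Real.sin (w * α) / w -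
      2 * (κ - α) * Real.cos (w * α) / w ^ 2 - 2 * Real.sin (w * α) / w ^ 3)
      ((κ - α) ^ 2 * Real.cos (w * α)) α := by
    intro α
    have h1 : HasDerivAt (fun α : ℝ => w * α) w α := by
      simpa using (hasDerivAt_id α).const_mul w
    have h2 : HasDerivAt (fun α : ℝ => κ - α) (-1) α := by
      simpa using (hasDerivAt_id α).const_sub κ
    have h3 := h1.sin
    have h4 := h1.cos
    refine ((((h2.pow 2).mul h3).div_const w).sub (((h2.const_mul 2).mul h4).div_const (w ^ 2)) |>.sub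
      ((h3.const_mul 2).div_const (w ^ 3))).congr_deriv ?_
    simp only [Pi.pow_apply, Pi.sub_apply]
    field_simp
    push_cast
    ring
  rw [intervalIntegral.integral_eq_sub_of_hasDerivAt (fun α _ => hd α)]
  · simp only [sub_self, mul_zero, Real.sin_zero, Real.cos_zero, sub_zero]
    rw [mul_comm w κ]
    field_simp
    ring
  · apply Continuous.intervalIntegrable
    fun_prop

lemma F_half {κ : ℝ} (h0 : 0 < κ) (h1 : κ ≤ 1) (x : ℝ) :
    F κ x = ∫ α in (0 : ℝ)..κ, (κ - α) ^ 2 * Real.cos (2 * π * x * α) := by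
  unfold F
  have hc : Continuous fun α : ℝ => kR κ α * Real.cos (2 * π * x * α) := by
    have := kR_cont κ
    fun_prop
  rw [← intervalIntegral.integral_add_adjacent_intervals (b := 0) (hc.intervalIntegrable _ _)
    (hc.intervalIntegrable _ _)]
  have e1 : ∫ α in (-1 : ℝ)..0, kR κ α * Real.cos (2 * π * x * α) =
      ∫ α in (0 : ℝ)..1, kR κ α * Real.cos (2 * π * x * α) := by
    have := intervalIntegral.integral_comp_neg (a := (0 : ℝ)) (b := 1)
      fun α : ℝ => kR κ α * Real.cos (2 * π * x * α)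
    rw [neg_zero] at this
    rw [← this]
    refine intervalIntegral.integral_congr fun α _ => ?_
    show kR κ (-α) * Real.cos (2 * π * x * (-α)) = _
    rw [kR_even, mul_neg, Real.cos_neg]
  rw [e1, ← intervalIntegral.integral_add_adjacent_intervals (a := 0) (b := κ) (c := 1)
    (hc.intervalIntegrable _ _) (hc.intervalIntegrable _ _)]
  have e2 : ∫ α in κ..1, kR κ α * Real.cos (2 * π * x * α) = 0 := by
    rw [intervalIntegral.integral_congr (g := fun _ => (0 : ℝ)) (fun α hα => ?_)]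
    · simp
    · rw [uIcc_of_le h1] at hα
      show kR κ α * Real.cos (2 * π * x * α) = 0
      rw [kR_supp (by rw [abs_of_nonneg (h0.le.trans hα.1)]; exact hα.1), zero_mul]
  rw [e2, add_zero, ← two_mul, ← intervalIntegral.integral_const_mul]
  refine intervalIntegral.integral_congr fun α hα => ?_
  rw [uIcc_of_le h0.le] at hα
  show 2 * (kR κ α * Real.cos (2 * π * x * α)) = _
  unfold kR
  rw [abs_of_nonneg hα.1, max_eq_right (by linarith [hα.2])]
  ring

lemma F_eq {κ : ℝ} (h0 : 0 < κ) (h1 : κ ≤ 1) {x : ℝ} (hx : x ≠ 0) : F κ x = kf κ x := by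
  have hpi := Real.pi_pos
  rw [F_half h0 h1, half_int (by positivity)]
  rfl

lemma F_zero {κ : ℝ} (h0 : 0 < κ) (h1 : κ ≤ 1) : F κ 0 = κ ^ 3 / 3 := by
  rw [F_half h0 h1]
  simp only [mul_zero, zero_mul, Real.cos_zero, mul_one]
  have hd : ∀ α : ℝ, HasDerivAt (fun α : ℝ => -((κ - α) ^ 3 / 3)) ((κ - α) ^ 2) α := by
    intro α
    have h2 : HasDerivAt (fun α : ℝ => κ - α) (-1) α := by
      simpa using (hasDerivAt_id α).const_sub κ
    refine ((h2.pow 3).div_const 3).neg.congr_deriv ?_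
    push_cast
    ring
  rw [intervalIntegral.integral_eq_sub_of_hasDerivAt (fun α _ => hd α)]
  · simp
  · apply Continuous.intervalIntegrable
    fun_prop

lemma F_even (κ x : ℝ) : F κ (-x) = F κ x := by
  unfold F
  refine intervalIntegral.integral_congr fun α _ => ?_
  show kR κ α * Real.cos (2 * π * -x * α) = kR κ α * Real.cos (2 * π * x * α)
  rw [show 2 * π * -x * α = -(2 * π * x * α) by ring, Real.cos_neg]

lemma F_cont (κ : ℝ) : Continuous (F κ) := by
  unfold F
  apply intervalIntegral.continuous_parametric_intervalIntegral_of_continuous'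
  have := kR_cont κ
  fun_prop

lemma F_bound {κ : ℝ} (h0 : 0 < κ) (h1 : κ ≤ 1) (x : ℝ) : |F κ x| ≤ 2 / (1 + x ^ 2) := by
  have hpi := Real.pi_gt_three
  rcases le_or_gt |x| 1 with hx | hx
  · have h2 : |F κ x| ≤ 1 / 2 * |1 - (-1 : ℝ)| := by
      unfold F
      rw [← Real.norm_eq_abs]
      refine intervalIntegral.norm_integral_le_of_norm_le_const fun α _ => ?_
      rw [norm_mul, Real.norm_eq_abs, Real.norm_eq_abs, abs_of_nonneg (kR_nonneg κ α)]
      have h3 := kR_le h0.le h1 α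
      have h4 := Real.abs_cos_le_one (2 * π * x * α)
      have h5 := kR_nonneg κ α
      have h6 := abs_nonneg (Real.cos (2 * π * x * α))
      nlinarith
    have h3 : |1 - (-1 : ℝ)| = 2 := by norm_num
    rw [h3] at h2
    have h4 : x ^ 2 ≤ 1 := by rw [← sq_abs]; exact pow_le_one₀ (abs_nonneg _) hx
    rw [le_div_iff₀ (by positivity)]
    nlinarith [abs_nonneg (F κ x)]
  · have hx0 : x ≠ 0 := by rintro rfl; simp at hx; linarith
    rw [F_eq h0 h1 hx0]
    unfold kf
    have hx2 : 1 < x ^ 2 := by rw [← sq_abs]; exact one_lt_pow₀ hx (by norm_num)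
    rw [abs_div, abs_pow, abs_mul 2 (κ * (2 * π * x) - _), abs_of_pos (show (0 : ℝ) < 2 by norm_num)]
    set W : ℝ := |2 * π * x| with hW
    have hW1 : 6 * |x| ≤ W := by
      rw [hW, abs_mul, abs_of_pos (show 0 < 2 * π by positivity)]
      nlinarith [abs_nonneg x]
    have hW0 : 1 ≤ W := by linarith
    have h2 : |κ * (2 * π * x) - Real.sin (κ * (2 * π * x))| ≤ 2 * W := by
      refine (abs_sub _ _).trans ?_
      rw [abs_mul κ, abs_of_pos h0, ← hW]
      have := Real.abs_sin_le_one (κ * (2 * π * x))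
      nlinarith
    rw [div_le_div_iff₀ (by positivity) (by positivity)]
    have h3 : 36 * x ^ 2 ≤ W ^ 2 := by
      have := pow_le_pow_left₀ (by positivity) hW1 2
      rw [mul_pow, sq_abs] at this
      linarith
    have h4 : 4 * (1 + x ^ 2) ≤ 2 * W ^ 2 := by linarith
    calc 2 * |κ * (2 * π * x) - Real.sin (κ * (2 * π * x))| * (1 + x ^ 2) ≤
          2 * (2 * W) * (1 + x ^ 2) := by gcongr
      _ = W * (4 * (1 + x ^ 2)) := by ring
      _ ≤ W * (2 * W ^ 2) := by gcongr
      _ = 2 * W ^ 3 := by ring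

lemma F_lim {κ : ℝ} (h0 : 0 < κ) (h1 : κ ≤ 1) : Tendsto (F κ) atTop (𝓝 0) := by
  refine squeeze_zero_norm (a := fun x : ℝ => 2 / (1 + x ^ 2)) (fun x => F_bound h0 h1 x) ?_
  refine Tendsto.const_div_atTop ?_ 2
  exact tendsto_atTop_add_const_left _ _ (tendsto_pow_atTop (by norm_num))

lemma F_deriv {κ : ℝ} (h0 : 0 < κ) (h1 : κ ≤ 1) {x : ℝ} (hx : 0 < x) :
    HasDerivAt (F κ) (-(kh κ x)) x := by
  refine (kf_deriv hx.ne').congr_of_eventuallyEq ?_
  filter_upwards [lt_mem_nhds hx] with y hy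
  exact F_eq h0 h1 hy.ne'

lemma kh_intOn {κ : ℝ} (h0 : 0 < κ) (h1 : κ ≤ 1) {a : ℝ} (ha : 0 ≤ a) :
    IntegrableOn (kh κ) (Ioi a) := by
  have h := integrableOn_Ioi_deriv_of_nonpos (g := F κ) (g' := fun x => -(kh κ x)) (a := a)
    (l := 0) (F_cont κ).continuousWithinAt (fun x hx => F_deriv h0 h1 (ha.trans_lt hx))
    (fun x hx => by linarith [kh_nonneg (κ := κ) (x := x) h0.le (ha.trans hx.le)]) (F_lim h0 h1)
  simpa using h.neg

lemma kh_int {κ : ℝ} (h0 : 0 < κ) (h1 : κ ≤ 1) {a : ℝ} (ha : 0 ≤ a) :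
    ∫ x in Ioi a, kh κ x = F κ a := by
  have h := integral_Ioi_of_hasDerivAt_of_nonpos (g := F κ) (g' := fun x => -(kh κ x)) (a := a)
    (l := 0) (F_cont κ).continuousWithinAt (fun x hx => F_deriv h0 h1 (ha.trans_lt hx))
    (fun x hx => by linarith [kh_nonneg (κ := κ) (x := x) h0.le (ha.trans hx.le)]) (F_lim h0 h1)
  rw [integral_neg] at h
  linarith

/-- an upper bound for the kernel -/
lemma kh_le {κ : ℝ} (h0 : 0 < κ) (h1 : κ ≤ 1) {t : ℝ} (ht : 0 < t) :
    t * kh κ t ≤ 24 / (1 + t ^ 2) := by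
  have hpi := Real.pi_gt_three
  have hw : 0 < 2 * π * t := by positivity
  have e : t * kh κ t = 2 * G (κ * (2 * π * t)) / (2 * π * t) ^ 3 := by
    unfold kh
    field_simp
    ring
  rw [e, div_le_div_iff₀ (by positivity) (by positivity)]
  rcases le_or_gt t 1 with h | h
  · have h2 := G_le_cube (y := κ * (2 * π * t)) (by positivity)
    have h3 : (κ * (2 * π * t)) ^ 3 ≤ (2 * π * t) ^ 3 := by
      apply pow_le_pow_left₀ (by positivity)
      nlinarith
    have h4 : 1 + t ^ 2 ≤ 2 := by nlinarith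
    calc 2 * G (κ * (2 * π * t)) * (1 + t ^ 2) ≤ 2 * (6 * (2 * π * t) ^ 3) * 2 := by
          gcongr
          linarith
      _ = 24 * (2 * π * t) ^ 3 := by ring
  · have h2 := G_le_lin (y := κ * (2 * π * t)) (by positivity)
    have h3 : κ * (2 * π * t) ≤ 2 * π * t := by nlinarith
    have h4 : 6 * t ≤ 2 * π * t := by nlinarith
    set w : ℝ := 2 * π * t with hwd
    have h5 : G (κ * w) ≤ 6 * w := by linarith
    have h6 : 1 + t ^ 2 ≤ w ^ 2 := by nlinarith
    calc 2 * G (κ * w) * (1 + t ^ 2) ≤ 2 * (6 * w) * w ^ 2 := by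
          gcongr
      _ ≤ 24 * w ^ 3 := by nlinarith [pow_pos hw 3]

/-- the scaling property -/
lemma F_scale {κ : ℝ} (h0 : 0 < κ) (h1 : κ ≤ 1) (y s : ℝ) (hs : 1 ≤ s) :
    |F κ (s * y) - F κ y| ≤ 24 * (s - 1) / (1 + y ^ 2) := by
  -- reduce to `y > 0`
  have key : ∀ y : ℝ, 0 < y → |F κ (s * y) - F κ y| ≤ 24 * (s - 1) / (1 + y ^ 2) := by
    intro y hy
    have hsy : y ≤ s * y := by nlinarith
    have hd : ∀ x ∈ Icc y (s * y), HasDerivWithinAt (F κ) (-(kh κ x)) (Icc y (s * y)) x :=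
      fun x hx => (F_deriv h0 h1 (hy.trans_le hx.1)).hasDerivWithinAt
    have hb : ∀ x ∈ Icc y (s * y), ‖-(kh κ x)‖ ≤ 24 / (y * (1 + y ^ 2)) := by
      intro x hx
      have hx0 : 0 < x := hy.trans_le hx.1
      have h2 := kh_le h0 h1 hx0
      rw [norm_neg, Real.norm_eq_abs, abs_of_nonneg (kh_nonneg h0.le hx0.le)]
      have h3 : kh κ x ≤ 24 / (x * (1 + x ^ 2)) := by
        rw [le_div_iff₀ (by positivity)]
        rw [le_div_iff₀ (by positivity)] at h2
        nlinarith
      refine h3.trans ?_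
      have hx1 := hx.1
      gcongr
    have := (convex_Icc y (s * y)).norm_image_sub_le_of_norm_hasDerivWithin_le hd hb
      ⟨le_rfl, hsy⟩ ⟨hsy, le_rfl⟩
    rw [Real.norm_eq_abs] at this
    refine this.trans (le_of_eq ?_)
    have e : ‖s * y - y‖ = (s - 1) * y := by
      rw [Real.norm_eq_abs, abs_of_nonneg (by linarith)]
      ring
    rw [e]
    field_simp
  rcases lt_trichotomy y 0 with hy | hy | hy
  · have := key (-y) (by linarith)
    rw [mul_neg, F_even, F_even, neg_sq] at this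
    exact this
  · rw [hy]
    simp
    linarith
  · exact key y hy

end Pool.Agent.H424.MW
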