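import Pool.Agent.Y744.PCR.Glue
import Pool.Agent.H424.MW.Ker

/-! Montgomery's theorem for the decreasing kernel, in terms of the counting functions. -/

open MeasureTheory Filter Topology Real Set

namespace Pool.Agent.H424.MW

open Pool.Agent.Y744
open Pool.Agent.Results.MP_103a5c_nt.BohrSetPairs (r mont TestFn)

variable {κ : ℝ}

lemma ntf (h0 : 0 < κ) (h1 : κ < 1) : NTf (kR κ) κ (F κ) where
  test := ⟨kR_cont κ, kR_even κ, fun _ h => kR_supp h, 2, fun x => F_bound h0 h1.le x⟩
  κ0 := h0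
  κ1 := h1
  eq := fun _ => rfl
  even := F_even κ
  scale := ⟨24, by norm_num, fun y s hs => F_scale h0 h1.le y s hs⟩

lemma inv_int (a : ℝ) (C : ℝ) : IntegrableOn (fun t : ℝ => C / (1 + t ^ 2)) (Ioi a) := by
  have h := (integrable_inv_one_add_sq.const_mul C).integrableOn (s := Ioi a)
  refine h.congr_fun (fun t _ => ?_) measurableSet_Ioi
  simp only [div_eq_mul_inv]

lemma kh_meas (κ : ℝ) : Measurable (kh κ) := by
  unfold kh G
  fun_prop

lemma khgp_int (h0 : 0 < κ) (h1 : κ ≤ 1) {a : ℝ} (ha : 0 ≤ a) :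
    IntegrableOn (fun t => kh κ t * gp t) (Ioi a) := by
  refine Integrable.mono' (inv_int a 24) ((kh_meas κ).mul gp_cont.measurable).aestronglyMeasurable ?_
  filter_upwards [ae_restrict_mem measurableSet_Ioi] with t ht
  have ht0 : 0 < t := ha.trans_lt ht
  rw [Real.norm_eq_abs, abs_of_nonneg (mul_nonneg (kh_nonneg h0.le ht0.le) (gp_nonneg ht0.le))]
  have h2 := kh_le h0 h1 ht0
  have h3 := gp_le ht0.le
  have h4 := kh_nonneg (κ := κ) (x := t) h0.le ht0.le
  nlinarith

lemma Fgd_int (h0 : 0 < κ) (h1 : κ ≤ 1) (a : ℝ) :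
    IntegrableOn (fun t => F κ t * gd t) (Ioi a) := by
  refine Integrable.mono' (inv_int a 2) ((F_cont κ).mul gd_cont).aestronglyMeasurable ?_
  refine ae_of_all _ fun t => ?_
  rw [norm_mul, Real.norm_eq_abs, Real.norm_eq_abs, abs_of_nonneg (gd_nonneg t)]
  have h2 := F_bound h0 h1 t
  have h3 := gd_le t
  have h4 := gd_nonneg t
  nlinarith [abs_nonneg (F κ t)]

lemma parts (h0 : 0 < κ) (h1 : κ ≤ 1) :
    ∫ t in Ioi 0, F κ t * gd t = ∫ t in Ioi 0, kh κ t * gp t := by
  have h := integral_Ioi_mul_deriv_eq_deriv_mul (a := (0 : ℝ)) (a' := (0 : ℝ)) (b' := (0 : ℝ))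
    (u := F κ) (v := gp) (u' := fun x => -(kh κ x)) (v' := gd)
    (fun x hx => F_deriv h0 h1 hx) (fun x _ => gp_deriv x) (Fgd_int h0 h1 0)
    (by
      have := (khgp_int h0 h1 (le_refl (0 : ℝ))).neg
      refine this.congr_fun (fun t _ => ?_) measurableSet_Ioi
      simp)
    (by
      have hc : Continuous (F κ * gp) := (F_cont κ).mul gp_cont
      have := (hc.tendsto 0).mono_left (nhdsWithin_le_nhds (s := Ioi (0 : ℝ)))
      simpa [gp_zero] using this)
    (by
      have hb : ∀ᶠ x : ℝ in atTop, ‖(F κ * gp) x‖ ≤ 2 / x := by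
        filter_upwards [eventually_gt_atTop 0] with x hx
        rw [Pi.mul_apply, norm_mul, Real.norm_eq_abs, Real.norm_eq_abs, abs_of_nonneg (gp_nonneg hx.le)]
        have h2 := F_bound h0 h1 x
        have h3 := gp_le hx.le
        calc |F κ x| * gp x ≤ 2 / (1 + x ^ 2) * x := by
              gcongr
              exact gp_nonneg hx.le
          _ ≤ 2 / x := by
              rw [div_mul_eq_mul_div, div_le_div_iff₀ (by positivity) hx]
              nlinarith
      exact squeeze_zero_norm' hb (tendsto_const_nhds.div_atTop tendsto_id))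
  rw [h]
  simp only [neg_mul, integral_neg]
  ring

lemma mont_eq (h0 : 0 < κ) (h1 : κ ≤ 1) :
    mont (kR κ) = ∫ t in Ioi 0, kh κ t * AG t := by
  have hRR : ∀ x, H370.A2.RR (kR κ) 1 x = F κ x := by
    intro x
    unfold H370.A2.RR F
    refine intervalIntegral.integral_congr fun α _ => ?_
    show kR κ α * Real.cos (2 * π * α * x) = kR κ α * Real.cos (2 * π * x * α)
    congr 2
    ring
  have e1 := H370.A2.main_term (ψ := kR κ) (μ := 1) (C := 2) (kR_cont κ)
    (fun x hx => kR_supp (h1.trans hx)) le_rfl (fun x => by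
      rw [hRR]
      have h2 : |F κ x| * x ^ 2 ≤ 2 / (1 + x ^ 2) * x ^ 2 :=
        mul_le_mul_of_nonneg_right (F_bound h0 h1 x) (sq_nonneg x)
      refine h2.trans ?_
      rw [div_mul_eq_mul_div, div_le_iff₀ (by positivity)]
      nlinarith [sq_nonneg x])
  simp_rw [hRR] at e1
  have e2 : ∫ y, F κ y * gd y = ∫ x, F κ x * (1 - (Real.sin (π * x) / (π * x)) ^ 2) := by
    refine integral_congr_ae ?_
    have h0 : ∀ᵐ x : ℝ, x ≠ 0 := by
      rw [ae_iff]
      simp
    filter_upwards [h0] with x hx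
    unfold gd
    have hpi := Real.pi_pos
    rw [Real.sinc_of_ne_zero (by positivity)]
  have e3 : ∫ y, F κ y * gd y = 2 * ∫ t in Ioi 0, kh κ t * gp t := by
    rw [← parts h0 h1, ← integral_comp_abs (f := fun t => F κ t * gd t)]
    refine integral_congr_ae (ae_of_all _ fun x => ?_)
    show F κ x * gd x = F κ |x| * gd |x|
    rcases abs_cases x with ⟨h, _⟩ | ⟨h, _⟩
    · rw [h]
    · rw [h, F_even]
      congr 1
      unfold gd
      rw [mul_neg, Real.sinc_neg]
  have e4 : ∫ t in Ioi 0, kh κ t * AG t = F κ 0 + 2 * ∫ t in Ioi 0, kh κ t * gp t := by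
    rw [← kh_int h0 h1 le_rfl, ← integral_const_mul, ← integral_add (kh_intOn h0 h1 le_rfl)
      ((khgp_int h0 h1 le_rfl).const_mul 2)]
    refine setIntegral_congr_fun measurableSet_Ioi fun t ht => ?_
    have ht0 : 0 < t := ht
    show kh κ t * AG t = kh κ t + 2 * (kh κ t * gp t)
    unfold AG
    rw [if_neg (by linarith)]
    ring
  rw [e4, ← e3, e2, e1]
  unfold mont
  congr 1
  have hc : Continuous fun α : ℝ => |α| * kR κ α := continuous_abs.mul (kR_cont κ)
  rw [← intervalIntegral.integral_add_adjacent_intervals (a := -1) (b := 0) (c := 1)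
    (hc.intervalIntegrable _ _) (hc.intervalIntegrable _ _)]
  have h3 : ∫ α in (-1 : ℝ)..0, |α| * kR κ α = ∫ α in (0 : ℝ)..1, |α| * kR κ α := by
    have := intervalIntegral.integral_comp_neg (a := 0) (b := 1)
      (fun α : ℝ => |α| * kR κ α)
    rw [neg_zero] at this
    rw [← this]
    refine intervalIntegral.integral_congr fun α _ => ?_
    show |(-α)| * kR κ (-α) = |α| * kR κ α
    rw [abs_neg, kR_even]
  have h4 : ∫ α in (0 : ℝ)..1, |α| * kR κ α = ∫ α in (0 : ℝ)..1, α * kR κ α := by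
    refine intervalIntegral.integral_congr fun α hα => ?_
    rw [Set.uIcc_of_le (by norm_num)] at hα
    show |α| * kR κ α = α * kR κ α
    rw [abs_of_nonneg hα.1]
  rw [h3, h4]
  ring

lemma tail_kh (h0 : 0 < κ) (h1 : κ ≤ 1) {y : ℝ} (hy : 0 ≤ y) :
    ∫ t in Ioi 0, (Ici y).indicator (kh κ) t = F κ y := by
  rw [setIntegral_indicator measurableSet_Ici, ← kh_int h0 h1 hy]
  rcases hy.eq_or_lt with h | h
  · rw [← h]
    congr 2
    ext t
    simp only [mem_inter_iff, mem_Ioi, mem_Ici]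
    exact ⟨fun h => h.1, fun h => ⟨h, h.le⟩⟩
  · have : Ioi 0 ∩ Ici y = Ici y := by
      ext t
      simp only [mem_inter_iff, mem_Ioi, mem_Ici]
      exact ⟨fun h => h.2, fun h' => ⟨h.trans_le h', h'⟩⟩
    rw [this, integral_Ici_eq_integral_Ioi]

/-- the pair sum of the kernel is an average of the counting function -/
lemma Q2_eq (h0 : 0 < κ) (h1 : κ ≤ 1) (T : ℝ) :
    ∫ t in Ioi 0, kh κ t * Aa T t = Q2 (F κ) T (Real.log T) / Xf T := by
  have e1 : ∀ y, kh κ y * Aa T y = (Xf T)⁻¹ * ∑ s ∈ Zt T, ∑ s' ∈ Zt T, mz s * mz s' *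
        (Set.Ici |dd T s s'|).indicator (kh κ) y := by
    intro y
    unfold Aa PC
    rw [mul_left_comm, Finset.mul_sum]
    congr 1
    refine Finset.sum_congr rfl fun s _ => ?_
    rw [Finset.mul_sum]
    refine Finset.sum_congr rfl fun s' _ => ?_
    rw [mul_left_comm]
    congr 1
    by_cases hx : |dd T s s'| ≤ y
    · rw [Set.indicator_of_mem (show dd T s s' ∈ {x | |x| ≤ y} from hx),
        Set.indicator_of_mem (show y ∈ Set.Ici |dd T s s'| from hx), mul_one]
    · rw [Set.indicator_of_notMem (show dd T s s' ∉ {x | |x| ≤ y} from hx),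
        Set.indicator_of_notMem (show y ∉ Set.Ici |dd T s s'| from hx), mul_zero]
  simp_rw [e1]
  have hi : ∀ t : ℝ, IntegrableOn ((Set.Ici t).indicator (kh κ)) (Ioi 0) := fun t =>
    (kh_intOn h0 h1 le_rfl).indicator measurableSet_Ici
  rw [integral_const_mul, integral_finsetSum _ fun s _ => integrable_finsetSum _ fun s' _ =>
    (hi _).const_mul _]
  rw [div_eq_inv_mul]
  congr 1
  unfold Q2 QS
  refine Finset.sum_congr rfl fun s _ => ?_
  rw [integral_finsetSum _ fun s' _ => (hi _).const_mul _]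
  refine Finset.sum_congr rfl fun s' _ => ?_
  rw [integral_const_mul, tail_kh h0 h1 (abs_nonneg _)]
  congr 1
  show F κ |dd T s s'| = F κ (dd T s s')
  rcases abs_cases (dd T s s') with ⟨h1, _⟩ | ⟨h1, _⟩
  · rw [h1]
  · rw [h1, F_even]

/-- **Montgomery's theorem for the decreasing kernel** -/
theorem J_lim (RH : RiemannHypothesis) (h0 : 0 < κ) (h1 : κ < 1) :
    Tendsto (fun T => ∫ t in Ioi 0, kh κ t * Aa T t) atTop (𝓝 (∫ t in Ioi 0, kh κ t * AG t)) := by
  simp_rw [Q2_eq h0 h1.le]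
  rw [← mont_eq h0 h1.le]
  exact mont_lim RH (ntf h0 h1)

end Pool.Agent.H424.MW
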